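import Pool.Agent.H7.GY.Stmts

/-! # Row NYB of the board gy11 (helper71): a numerical inequality -/

set_option autoImplicit false

open Finset

namespace Pool.GY7

open Pool.Agent.H23.KT Pool.Agent.H46.KW Pool.KQ Pool.GT7 Pool.GU7 Pool.GV7

theorem nyb_rho (N c b r : ℝ) (n : ℕ) (hn : n ≠ 0) (hN : 0 < N) (hc : 0 ≤ c) (hb : 0 < b)
    (h : N * r ^ n ≤ b ^ n) (h1 : 1 ≤ N * c ^ n) : r ≤ c * b := by
  by_contra hlt
  push Not at hlt
  have h2 : (c * b) ^ n < r ^ n := pow_lt_pow_left₀ hlt (by positivity) hn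
  have h3 : N * (c * b) ^ n < N * r ^ n := mul_lt_mul_of_pos_left h2 hN
  rw [mul_pow] at h3
  have h4 : 0 < b ^ n := by positivity
  have h5 : b ^ n ≤ N * c ^ n * b ^ n := by
    have := mul_le_mul_of_nonneg_right h1 h4.le
    linarith
  nlinarith

theorem nyb_k (p r : ℕ) (c β : ℝ) (hβ : 1 < β) (hb : β ≤ (p : ℝ) + 3)
    (h : (r : ℝ) ≤ c * ((p : ℝ) + 3)) :
    kY p r ≤ (1 + 3 * c) / 4 + (1 + 1 / (8 * β ^ 2)) / (β - 1) := by
  have hp : (0 : ℝ) ≤ p := Nat.cast_nonneg p
  have e : kY p r = yY p r + (1 + 1 / (8 * ((p : ℝ) + 3) ^ 2)) / ((p : ℝ) + 3 - 1) := by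
    unfold kY mY
    have h1 : (p : ℝ) + 3 - 1 = p + 2 := by ring
    have h2 : (p : ℝ) + 2 ≠ 0 := by positivity
    rw [h1]
    field_simp
    ring
  rw [e]
  have h1 : yY p r ≤ (1 + 3 * c) / 4 := by
    unfold yY
    rw [div_le_div_iff₀ (by positivity) (by norm_num)]
    nlinarith
  have h2 : (1 + 1 / (8 * ((p : ℝ) + 3) ^ 2)) / ((p : ℝ) + 3 - 1) ≤
      (1 + 1 / (8 * β ^ 2)) / (β - 1) := by
    have h3 : 0 < β - 1 := by linarith
    have h4 : 1 / (8 * ((p : ℝ) + 3) ^ 2) ≤ 1 / (8 * β ^ 2) := by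
      apply one_div_le_one_div_of_le (by positivity)
      have : β ^ 2 ≤ ((p : ℝ) + 3) ^ 2 := pow_le_pow_left₀ (by linarith) hb 2
      linarith
    exact div_le_div₀ (by positivity) (by linarith) h3 (by linarith)
  linarith

theorem nyb_k0 (p r : ℕ) : 0 ≤ kY p r := by
  unfold kY mY yY
  positivity

/-- `(u+1)(1-2/u)^(u-1) ≥ 1` for `u ≥ 7` (`u = n + 7`) -/
theorem nyb_h (n : ℕ) : 1 ≤ ((n : ℝ) + 8) * (1 - 2 / ((n : ℝ) + 7)) ^ (n + 6) := by
  induction n with
  | zero => norm_num
  | succ n ih =>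
    have hn : (0 : ℝ) ≤ n := Nat.cast_nonneg n
    set u : ℝ := (n : ℝ) + 7 with hu
    have hu7 : 7 ≤ u := by linarith
    have e1 : ((n + 1 : ℕ) : ℝ) + 8 = u + 2 := by push_cast; ring
    have e2 : ((n + 1 : ℕ) : ℝ) + 7 = u + 1 := by push_cast; ring
    have e3 : (n : ℝ) + 8 = u + 1 := by rw [hu]; ring
    rw [e1, e2]
    rw [e3] at ih
    have ha : 0 < 1 - 2 / u := by
      have : 2 / u < 1 := by rw [div_lt_one (by linarith)]; linarith
      linarith
    have hca : 1 - 2 / (u + 1) = (1 - 2 / u) * (1 + 2 / ((u + 1) * (u - 2))) := by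
      have h1 : u ≠ 0 := by linarith
      have h2 : u + 1 ≠ 0 := by linarith
      have h3 : u - 2 ≠ 0 := by linarith
      field_simp
      ring
    have hB : 1 + ((n + 1 + 6 : ℕ) : ℝ) * (2 / ((u + 1) * (u - 2))) ≤
        (1 + 2 / ((u + 1) * (u - 2))) ^ (n + 1 + 6) := by
      apply one_add_mul_le_pow
      have : 0 ≤ 2 / ((u + 1) * (u - 2)) := by
        apply div_nonneg (by norm_num)
        apply mul_nonneg <;> linarith
      linarith
    have e4 : ((n + 1 + 6 : ℕ) : ℝ) = u := by rw [hu]; push_cast; ring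
    rw [e4] at hB
    have e5 : (1 - 2 / u) ^ (n + 1 + 6) = (1 - 2 / u) ^ (n + 6) * (1 - 2 / u) := by
      rw [← pow_succ]
    rw [hca, mul_pow, e5]
    have h6 : (u + 1) ≤ (u + 2) * ((1 - 2 / u) * (1 + u * (2 / ((u + 1) * (u - 2))))) := by
      have h1 : (0 : ℝ) < u := by linarith
      have h2 : (0 : ℝ) < u + 1 := by linarith
      have h3 : (0 : ℝ) < u - 2 := by linarith
      have e6 : (u + 2) * ((1 - 2 / u) * (1 + u * (2 / ((u + 1) * (u - 2))))) =
          (u + 2) * (u ^ 2 + u - 2) / (u * (u + 1)) := by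
        field_simp
        ring
      rw [e6, le_div_iff₀ (by positivity)]
      nlinarith
    have hP : 0 < (1 - 2 / u) ^ (n + 6) := pow_pos ha _
    calc (1 : ℝ) ≤ (u + 1) * (1 - 2 / u) ^ (n + 6) := ih
      _ ≤ ((u + 2) * ((1 - 2 / u) * (1 + u * (2 / ((u + 1) * (u - 2)))))) *
          (1 - 2 / u) ^ (n + 6) := mul_le_mul_of_nonneg_right h6 hP.le
      _ = (u + 2) * ((1 - 2 / u) ^ (n + 6) * (1 - 2 / u) *
          (1 + u * (2 / ((u + 1) * (u - 2))))) := by ring
      _ ≤ (u + 2) * ((1 - 2 / u) ^ (n + 6) * (1 - 2 / u) *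
          (1 + 2 / ((u + 1) * (u - 2))) ^ (n + 1 + 6)) := by
          apply mul_le_mul_of_nonneg_left _ (by linarith)
          exact mul_le_mul_of_nonneg_left hB (by positivity)

/-- `(n/(n+1))^n` is decreasing -/
theorem nyb_g (n : ℕ) : (1 - 1 / ((n : ℝ) + 9)) ^ (n + 8) ≤ (8 / 9 : ℝ) ^ 8 := by
  induction n with
  | zero => norm_num
  | succ n ih =>
    refine le_trans ?_ ih
    have hn : (0 : ℝ) ≤ n := Nat.cast_nonneg n
    set v : ℝ := (n : ℝ) + 9 with hv
    have e2 : ((n + 1 : ℕ) : ℝ) + 9 = v + 1 := by push_cast; ring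
    rw [e2]
    have hv9 : 9 ≤ v := by linarith
    have ha : 0 < 1 - 1 / v := by
      have : 1 / v < 1 := by rw [div_lt_one (by linarith)]; linarith
      linarith
    have hc : 0 < 1 - 1 / (v + 1) := by
      have : 1 / (v + 1) < 1 := by rw [div_lt_one (by linarith)]; linarith
      linarith
    have hca : 1 - 1 / v = (1 - 1 / (v + 1)) * (1 + -(1 / v ^ 2)) := by
      have h1 : v ≠ 0 := by linarith
      have h2 : v + 1 ≠ 0 := by linarith
      field_simp
      ring
    have hB : 1 + ((n + 1 + 8 : ℕ) : ℝ) * (-(1 / v ^ 2)) ≤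
        (1 + -(1 / v ^ 2)) ^ (n + 1 + 8) := by
      apply one_add_mul_le_pow
      have : 1 / v ^ 2 ≤ 1 := by
        rw [div_le_one (by positivity)]
        nlinarith
      linarith
    have e4 : ((n + 1 + 8 : ℕ) : ℝ) = v := by rw [hv]; push_cast; ring
    rw [e4] at hB
    have e5 : 1 + v * (-(1 / v ^ 2)) = 1 - 1 / v := by
      have h1 : v ≠ 0 := by linarith
      field_simp
      ring
    rw [e5] at hB
    have h6 : (1 - 1 / (v + 1)) ^ (n + 1 + 8) * (1 - 1 / v) ≤ (1 - 1 / v) ^ (n + 1 + 8) := by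
      calc (1 - 1 / (v + 1)) ^ (n + 1 + 8) * (1 - 1 / v)
          ≤ (1 - 1 / (v + 1)) ^ (n + 1 + 8) * (1 + -(1 / v ^ 2)) ^ (n + 1 + 8) :=
            mul_le_mul_of_nonneg_left hB (by positivity)
        _ = (1 - 1 / v) ^ (n + 1 + 8) := by rw [← mul_pow, ← hca]
    have e7 : (1 - 1 / v) ^ (n + 1 + 8) = (1 - 1 / v) ^ (n + 8) * (1 - 1 / v) := by
      rw [← pow_succ]
    rw [e7] at h6
    exact le_of_mul_le_mul_right h6 ha

theorem NYB_thm : NYBStmt := by
  intro p w r hP
  have hp0 : (0 : ℝ) ≤ p := Nat.cast_nonneg p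
  have hb : (0 : ℝ) < (p : ℝ) + 3 := by positivity
  have hk0 := nyb_k0 p r
  have h2 := hP.w2
  have hrw := hP.rw
  have hrp := hP.rp
  have hR3 : ((w : ℝ) + 3) * (r : ℝ) ^ (w + 1) ≤ ((p : ℝ) + 3) ^ (w + 1) := by
    exact_mod_cast hP.R3
  rcases Nat.lt_or_ge w 5 with hw | hw
  · have hcases : w = 2 ∨ w = 3 ∨ w = 4 := by omega
    rcases hcases with rfl | rfl | rfl
    · -- w = 2
      have hR := hP.R3
      have hR1 := hP.R1
      have hp4 : 4 ≤ p := by omega
      have hG : GY 2 = 37 / 64 := by unfold GY; norm_num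
      rcases Nat.lt_or_ge p 6 with hp6 | hp6
      · have hc2 : p = 4 ∨ p = 5 := by omega
        rcases hc2 with rfl | rfl
        · have hr : r = 4 := by omega
          subst hr
          norm_num at hR1
        · have hr : r = 4 ∨ r = 5 := by omega
          rcases hr with rfl | rfl
          · rw [hG]
            unfold kY mY yY
            norm_num
          · norm_num at hR
      · have hr := nyb_rho _ (5849 / 10000) _ _ 3 (by norm_num) (by positivity) (by norm_num) hb hR3
          (by norm_num)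
        have hp6' : (9 : ℝ) ≤ (p : ℝ) + 3 := by
          have : ((6 : ℕ) : ℝ) ≤ p := Nat.cast_le.2 hp6
          push_cast at this
          linarith
        have hk := nyb_k p r (5849 / 10000) 9 (by norm_num) hp6' hr
        rw [hG]
        refine lt_of_le_of_lt (pow_le_pow_left₀ hk0 hk 3) ?_
        norm_num
    · -- w = 3
      have hR := hP.R3
      have hG : GY 3 = 369 / 625 := by unfold GY; norm_num
      have hp5 : 5 ≤ p := by omega
      have hr := nyb_rho _ (639 / 1000) _ _ 4 (by norm_num) (by positivity) (by norm_num) hb hR3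
          (by norm_num)
      have hp6' : (8 : ℝ) ≤ (p : ℝ) + 3 := by
        have : ((5 : ℕ) : ℝ) ≤ p := Nat.cast_le.2 hp5
        push_cast at this
        linarith
      have hk := nyb_k p r (639 / 1000) 8 (by norm_num) hp6' hr
      rw [hG]
      refine lt_of_le_of_lt (pow_le_pow_left₀ hk0 hk 4) ?_
      norm_num
    · -- w = 4
      have hR := hP.R3
      have hG : GY 4 = 1 - (5 / 6) ^ 5 := by unfold GY; norm_num
      have hp5 : 6 ≤ p := by omega
      have hr := nyb_rho _ (6777 / 10000) _ _ 5 (by norm_num) (by positivity) (by norm_num) hb hR3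
          (by norm_num)
      have hp6' : (9 : ℝ) ≤ (p : ℝ) + 3 := by
        have : ((6 : ℕ) : ℝ) ≤ p := Nat.cast_le.2 hp5
        push_cast at this
        linarith
      have hk := nyb_k p r (6777 / 10000) 9 (by norm_num) hp6' hr
      rw [hG]
      refine lt_of_le_of_lt (pow_le_pow_left₀ hk0 hk 5) ?_
      norm_num
  · obtain ⟨n, rfl⟩ := Nat.exists_eq_add_of_le hw
    have hn : (0 : ℝ) ≤ n := Nat.cast_nonneg n
    set u : ℝ := (n : ℝ) + 7 with hu
    have hu7 : 7 ≤ u := by linarith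
    have hc0 : 0 ≤ 1 - 2 / u := by
      have : 2 / u ≤ 1 := by rw [div_le_one (by linarith)]; linarith
      linarith
    have hr : (r : ℝ) ≤ (1 - 2 / u) * ((p : ℝ) + 3) := by
      refine nyb_rho _ _ _ _ (5 + n + 1) (by omega) (by positivity) hc0 hb hR3 ?_
      have h3 := nyb_h n
      have e1 : ((5 + n : ℕ) : ℝ) + 3 = (n : ℝ) + 8 := by push_cast; ring
      have e2 : 5 + n + 1 = n + 6 := by omega
      rw [e1, e2]
      exact h3
    have hru : u ≤ r := by
      have : ((5 + n + 2 : ℕ) : ℝ) ≤ r := Nat.cast_le.2 hrw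
      push_cast at this
      linarith
    have hpw : n + 7 ≤ p := by
      by_contra hlt
      push Not at hlt
      have h3 : (p : ℝ) ≤ n + 6 := by
        have : p ≤ n + 6 := by omega
        exact_mod_cast this
      have h4 : (p : ℝ) + 3 ≤ u + 2 := by linarith
      have h5 : (1 - 2 / u) * ((p : ℝ) + 3) ≤ (1 - 2 / u) * (u + 2) :=
        mul_le_mul_of_nonneg_left h4 hc0
      have h6 : (1 - 2 / u) * (u + 2) = u - 4 / u := by
        have : u ≠ 0 := by linarith
        field_simp
        ring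
      have h7 : 0 < 4 / u := by positivity
      linarith
    have hpu : u + 3 ≤ (p : ℝ) + 3 := by
      have : ((n + 7 : ℕ) : ℝ) ≤ p := Nat.cast_le.2 hpw
      push_cast at this
      linarith
    have hk := nyb_k p r (1 - 2 / u) (u + 3) (by linarith) hpu hr
    have hcases : n = 0 ∨ n = 1 ∨ 2 ≤ n := by omega
    rcases hcases with rfl | rfl | hn2
    · have hu' : u = 7 := by rw [hu]; norm_num
      rw [hu'] at hk
      have hG : GY (5 + 0) = 1 - (6 / 7) ^ 6 := by unfold GY; norm_num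
      rw [hG]
      refine lt_of_le_of_lt (pow_le_pow_left₀ hk0 hk _) ?_
      norm_num
    · have hu' : u = 8 := by rw [hu]; norm_num
      rw [hu'] at hk
      have hG : GY (5 + 1) = 1 - (7 / 8) ^ 7 := by unfold GY; norm_num
      rw [hG]
      refine lt_of_le_of_lt (pow_le_pow_left₀ hk0 hk _) ?_
      norm_num
    · obtain ⟨j, rfl⟩ := Nat.exists_eq_add_of_le hn2
      have hk2 : kY p r ≤ -(1 / 2 / (u - 1)) + 1 := by
        refine hk.trans ?_
        have h1 : (0 : ℝ) < u := by linarith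
        have h2 : (0 : ℝ) < u - 1 := by linarith
        have h3 : 1 / (8 * (u + 3) ^ 2) ≤ 1 / (8 * u) := by
          apply one_div_le_one_div_of_le (by positivity)
          nlinarith
        have h4 : (1 + 1 / (8 * (u + 3) ^ 2)) / (u + 3 - 1) ≤ (1 + 1 / (8 * u)) / (u + 2) := by
          have e : u + 3 - 1 = u + 2 := by ring
          rw [e]
          exact div_le_div_of_nonneg_right (by linarith) (by linarith)
        have h5 : (1 + 3 * (1 - 2 / u)) / 4 + (1 + 1 / (8 * u)) / (u + 2) ≤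
            -(1 / 2 / (u - 1)) + 1 := by
          have e : -(1 / 2 / (u - 1)) + 1 - ((1 + 3 * (1 - 2 / u)) / 4 + (1 + 1 / (8 * u)) / (u + 2)) =
              (11 * u - 23) / (8 * u * (u + 2) * (u - 1)) := by
            field_simp
            ring
          have h6 : 0 ≤ (11 * u - 23) / (8 * u * (u + 2) * (u - 1)) := by
            apply div_nonneg (by linarith)
            positivity
          linarith
        linarith
      have hk3 : kY p r ≤ Real.exp (-(1 / 2 / (u - 1))) := hk2.trans (Real.add_one_le_exp _)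
      have hk4 : kY p r ^ (5 + (2 + j) + 1) ≤ Real.exp (-(1 / 2)) := by
        refine (pow_le_pow_left₀ hk0 hk3 _).trans ?_
        rw [← Real.exp_nat_mul]
        apply le_of_eq
        congr 1
        have e : ((5 + (2 + j) + 1 : ℕ) : ℝ) = u - 1 := by rw [hu]; push_cast; ring
        rw [e]
        have h2 : u - 1 ≠ 0 := by linarith
        field_simp
      have hexp : Real.exp (-(1 / 2)) < 6066 / 10000 := by
        have h3 : Real.exp (-(1 / 2)) ^ 2 = Real.exp (-1) := by
          rw [← Real.exp_nat_mul]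
          congr 1
          norm_num
        have h4 := Real.exp_neg_one_lt_d9
        have h5 := Real.exp_pos (-(1 / 2) : ℝ)
        nlinarith
      have hG : 1 - (8 / 9 : ℝ) ^ 8 ≤ GY (5 + (2 + j)) := by
        unfold GY
        have h3 := nyb_g j
        have e1 : ((5 + (2 + j) : ℕ) : ℝ) + 2 = (j : ℝ) + 9 := by push_cast; ring
        have e2 : 5 + (2 + j) + 1 = j + 8 := by omega
        rw [e1, e2]
        linarith
      have h9 : (6066 / 10000 : ℝ) < 1 - (8 / 9 : ℝ) ^ 8 := by norm_num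
      linarith

end Pool.GY7
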